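import Pool.Agent.Q206.RX.Forms

/-!
# The two channels
-/

open Matrix
open scoped ComplexOrder Kronecker MatrixOrder

namespace Pool.Agent.Q206.RX

variable {a b n : Type} [Fintype a] [DecidableEq a] [Fintype b] [DecidableEq b]
  [Fintype n] [DecidableEq n]

/-- The map with Kraus operators `K`. -/
def kraus {ι : Type} [Fintype ι] (K : ι → Matrix b a ℂ) : Matrix a a ℂ →ₗ[ℂ] Matrix b b ℂ where
  toFun X := ∑ i, K i * X * (K i)ᴴ
  map_add' X Y := by
    rw [← Finset.sum_add_distrib]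
    exact Finset.sum_congr rfl fun i _ => by rw [Matrix.mul_add, Matrix.add_mul]
  map_smul' c X := by
    rw [RingHom.id_apply, Finset.smul_sum]
    exact Finset.sum_congr rfl fun i _ => by rw [Matrix.mul_smul, Matrix.smul_mul]

omit [DecidableEq b] in
lemma kraus_channel {ι : Type} [Fintype ι] (K : ι → Matrix b a ℂ)
    (hK : ∑ i, (K i)ᴴ * K i = 1) : IsChannel (kraus K) := by
  refine ⟨fun X => ?_, fun r X hX => ?_⟩
  · change (∑ i, K i * X * (K i)ᴴ).trace = _
    rw [Matrix.trace_sum]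
    have : ∀ i, (K i * X * (K i)ᴴ).trace = ((K i)ᴴ * K i * X).trace := by
      intro i
      rw [Matrix.trace_mul_comm, ← Matrix.mul_assoc]
    simp_rw [this]
    rw [← Matrix.trace_sum, ← Finset.sum_mul, hK, one_mul]
  · have h : idTensor (Fin r) (kraus K) X =
        ∑ i, ((1 : Matrix (Fin r) (Fin r) ℂ) ⊗ₖ K i) * X *
          ((1 : Matrix (Fin r) (Fin r) ℂ) ⊗ₖ K i)ᴴ := by
      ext ⟨i, x⟩ ⟨j, y⟩
      have e : ∀ L : Matrix b a ℂ,
          ((1 : Matrix (Fin r) (Fin r) ℂ) ⊗ₖ L * X * ((1 : Matrix (Fin r) (Fin r) ℂ) ⊗ₖ L)ᴴ)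
            (i, x) (j, y) = (L * (Matrix.of fun x y => X (i, x) (j, y)) * Lᴴ) x y := by
        intro L
        simp only [Matrix.mul_apply, Matrix.conjTranspose_apply, Fintype.sum_prod_type,
          Matrix.kroneckerMap_apply, Matrix.one_apply, ite_mul, one_mul, zero_mul,
          Finset.sum_ite_irrel, Finset.sum_const_zero, Finset.sum_ite_eq, Finset.mem_univ, if_true,
          Finset.sum_mul, Matrix.of_apply]
        rw [Finset.sum_eq_single j]
        · simp
        · intro k _ hk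
          simp [Ne.symm hk]
        · simp
      rw [Matrix.sum_apply]
      simp_rw [e]
      simp only [idTensor, kraus, LinearMap.coe_mk, AddHom.coe_mk]
      rw [Matrix.sum_apply]
    rw [h]
    exact Matrix.posSemidef_sum _ fun _ _ => hX.mul_mul_conjTranspose_same _

/-- The channel `M(X) = (9/25) X + (16/25) Tr(X) |0⟩⟨0|`. -/
noncomputable def M : Matrix (Fin 2) (Fin 2) ℂ →ₗ[ℂ] Matrix (Fin 2) (Fin 2) ℂ :=
  kraus (ι := Fin 3) ![!![3 / 5, 0; 0, 3 / 5], !![4 / 5, 0; 0, 0], !![0, 4 / 5; 0, 0]]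

/-- The channel `N`. -/
noncomputable def N : Matrix (Fin 2) (Fin 2) ℂ →ₗ[ℂ] Matrix (Fin 3) (Fin 3) ℂ :=
  kraus (ι := Fin 6) ![!![0, 8 / 9; 0, 0; 0, 0], !![0, 0; 1 / 3, 0; 0, 1 / 3],
    !![0, 0; 2 / 3, 0; 0, 0], !![0, 0; 0, 0; 2 / 3, 0], !![0, 0; 0, 2 / 9; 0, 0],
    !![0, 0; 0, 0; 0, 2 / 9]]

lemma M_apply (X : Matrix (Fin 2) (Fin 2) ℂ) : M X =
    !![9 / 25 * X 0 0 + 16 / 25 * (X 0 0 + X 1 1), 9 / 25 * X 0 1;
      9 / 25 * X 1 0, 9 / 25 * X 1 1] := by
  ext i j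
  simp only [M, kraus, LinearMap.coe_mk, AddHom.coe_mk, Matrix.add_apply, Matrix.mul_apply,
    Matrix.conjTranspose_apply, Fin.sum_univ_three, Fin.sum_univ_two]
  fin_cases i <;> fin_cases j <;>
    simp <;> ring

lemma N_apply (X : Matrix (Fin 2) (Fin 2) ℂ) : N X =
    !![64 / 81 * X 1 1, 0, 0;
      0, 1 / 9 * X 0 0 + (36 * X 0 0 + 4 * X 1 1) / 81, 1 / 9 * X 0 1;
      0, 1 / 9 * X 1 0, 1 / 9 * X 1 1 + (36 * X 0 0 + 4 * X 1 1) / 81] := by
  ext i j
  simp only [N, kraus, LinearMap.coe_mk, AddHom.coe_mk, Matrix.add_apply, Matrix.mul_apply,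
    Matrix.conjTranspose_apply, Fin.sum_univ_six, Fin.sum_univ_two]
  fin_cases i <;> fin_cases j <;>
    simp <;> ring

lemma M_channel : IsChannel M := by
  refine kraus_channel _ ?_
  ext i j
  simp only [Matrix.sum_apply, Matrix.mul_apply, Matrix.conjTranspose_apply, Fin.sum_univ_three,
    Fin.sum_univ_two]
  fin_cases i <;> fin_cases j <;> simp <;> norm_num

lemma N_channel : IsChannel N := by
  refine kraus_channel _ ?_
  ext i j
  simp only [Matrix.sum_apply, Matrix.mul_apply, Matrix.conjTranspose_apply, Fin.sum_univ_three,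
    Fin.sum_univ_six]
  fin_cases i <;> fin_cases j <;> simp <;> norm_num

end Pool.Agent.Q206.RX
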