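import Mathlib

/-!
# Relative expansion coefficients: standard `f`-divergences and Riemannian semi-norms

The Hilbert-Schmidt space of `n × n` matrices is identified with `ℂ^(n × n)` by `vec`, so that
`L_ρ R_γ⁻¹` (`X ↦ ρ X γ⁻¹`, generalised inverse) is the Hermitian matrix `LR ρ γ`.
-/

open Matrix
open scoped ComplexOrder Kronecker MatrixOrder

namespace Pool.Agent.Q206.RX

variable {a b n : Type} [Fintype a] [DecidableEq a] [Fintype b] [DecidableEq b]
  [Fintype n] [DecidableEq n]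

/-- Density operators: positive semidefinite matrices of trace one. -/
def IsState (ρ : Matrix n n ℂ) : Prop := ρ.PosSemidef ∧ ρ.trace = 1

/-- The map `id_R ⊗ N`, applied to a matrix on `R ⊗ A` (blockwise application of `N`). -/
def idTensor (r : Type) (N : Matrix a a ℂ →ₗ[ℂ] Matrix b b ℂ)
    (X : Matrix (r × a) (r × a) ℂ) : Matrix (r × b) (r × b) ℂ :=
  fun i j => N (Matrix.of fun x y => X (i.1, x) (j.1, y)) i.2 j.2

/-- Quantum channels: trace preserving and completely positive linear maps. -/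
def IsChannel (N : Matrix a a ℂ →ₗ[ℂ] Matrix b b ℂ) : Prop :=
  (∀ X, (N X).trace = X.trace) ∧
    ∀ (r : ℕ) (X : Matrix (Fin r × a) (Fin r × a) ℂ), X.PosSemidef →
      (idTensor (Fin r) N X).PosSemidef

/-- Operator convexity on `(0, ∞)`: `f(tA + (1-t)B) ≤ t f(A) + (1-t) f(B)` for all positive
definite matrices `A`, `B` of the same (arbitrary) size and `0 ≤ t ≤ 1`. -/
def OperatorConvex (f : ℝ → ℝ) : Prop :=
  ∀ (k : ℕ) (A B : Matrix (Fin k) (Fin k) ℂ) (t : ℝ), A.PosDef → B.PosDef → 0 ≤ t → t ≤ 1 →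
    ((t : ℂ) • cfc f A + ((1 - t : ℝ) : ℂ) • cfc f B -
      cfc f ((t : ℂ) • A + ((1 - t : ℝ) : ℂ) • B)).PosSemidef

/-- The class `𝓕` (the values outside `(0, ∞)` are irrelevant). -/
def IsF (f : ℝ → ℝ) : Prop :=
  OperatorConvex f ∧ f 1 = 0 ∧ 0 < deriv (deriv f) 1

/-- The bounded functions of the class `𝓚`: `κ(0⁺) < ∞`, and `κ 0 = κ(0⁺)`. -/
def IsBoundedK (κ : ℝ → ℝ) : Prop :=
  OperatorConvex κ ∧ (∀ x, 0 < x → x * κ x = κ (1 / x)) ∧ κ 1 = 1 ∧
    Filter.Tendsto κ (nhdsWithin 0 (Set.Ioi 0)) (nhds (κ 0))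

/-- A matrix as a vector of the Hilbert-Schmidt space. -/
def vec (X : Matrix n n ℂ) : n × n → ℂ := fun p => X p.1 p.2

/-- The generalised inverse of a positive semidefinite matrix, on its support (`0⁻¹ = 0`). -/
noncomputable def ginv (σ : Matrix n n ℂ) : Matrix n n ℂ := cfc (fun x : ℝ => x⁻¹) σ

/-- The operator `L_ρ R_γ⁻¹` on the Hilbert-Schmidt space. -/
noncomputable def LR (ρ γ : Matrix n n ℂ) : Matrix (n × n) (n × n) ℂ := ρ ⊗ₖ (ginv γ)ᵀ

/-- `D_f(ρ‖γ) = ⟨γ^(1/2), f(L_ρ R_γ⁻¹) γ^(1/2)⟩` -/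
noncomputable def stdDiv (f : ℝ → ℝ) (ρ γ : Matrix n n ℂ) : ℝ :=
  (star (vec (cfc Real.sqrt γ)) ⬝ᵥ (cfc f (LR ρ γ) *ᵥ vec (cfc Real.sqrt γ))).re

/-- `‖Y‖²_{κ,σ} = ⟨Y, κ(L_σ R_σ⁻¹) R_σ⁻¹ Y⟩` -/
noncomputable def riem (κ : ℝ → ℝ) (σ Y : Matrix n n ℂ) : ℝ :=
  (star (vec Y) ⬝ᵥ (cfc κ (LR σ σ) *ᵥ vec (Y * ginv σ))).re

/-- Equal supports, i.e. equal kernels. -/
def SameSupport (ρ γ : Matrix n n ℂ) : Prop := ∀ v : n → ℂ, ρ *ᵥ v = 0 ↔ γ *ᵥ v = 0

/-- The relative expansion coefficient of the standard `f`-divergence, an infimum in the extended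
reals over all pairs `ρ ≠ γ` of states with equal support and nonzero denominator. -/
noncomputable def etaStd (f : ℝ → ℝ) (N : Matrix a a ℂ →ₗ[ℂ] Matrix b b ℂ)
    {c : Type} [Fintype c] [DecidableEq c] (M : Matrix a a ℂ →ₗ[ℂ] Matrix c c ℂ) : EReal :=
  sInf {x : EReal | ∃ ρ γ : Matrix a a ℂ, IsState ρ ∧ IsState γ ∧ ρ ≠ γ ∧ SameSupport ρ γ ∧
    stdDiv f (M ρ) (M γ) ≠ 0 ∧
    x = ((stdDiv f (N ρ) (N γ) / stdDiv f (M ρ) (M γ) : ℝ) : EReal)}

/-- The Riemannian relative expansion coefficient, an infimum in the extended reals over all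
states `ρ` and traceless self-adjoint `X` with nonzero denominator. -/
noncomputable def etaRiem (κ : ℝ → ℝ) (N : Matrix a a ℂ →ₗ[ℂ] Matrix b b ℂ)
    {c : Type} [Fintype c] [DecidableEq c] (M : Matrix a a ℂ →ₗ[ℂ] Matrix c c ℂ) : EReal :=
  sInf {x : EReal | ∃ ρ X : Matrix a a ℂ, IsState ρ ∧ X.IsHermitian ∧ X.trace = 0 ∧
    riem κ (M ρ) (M X) ≠ 0 ∧
    x = ((riem κ (N ρ) (N X) / riem κ (M ρ) (M X) : ℝ) : EReal)}

/-! ### Basic lemmas -/

lemma LR_mulVec (ρ γ X : Matrix n n ℂ) : LR ρ γ *ᵥ vec X = vec (ρ * X * ginv γ) := by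
  ext ⟨i, j⟩
  simp only [LR, vec, Matrix.mulVec, dotProduct, Fintype.sum_prod_type,
    Matrix.kroneckerMap_apply, Matrix.transpose_apply, Matrix.mul_apply, Finset.sum_mul]
  rw [Finset.sum_comm]
  refine Finset.sum_congr rfl fun k _ => Finset.sum_congr rfl fun l _ => ?_
  ring

omit [DecidableEq n] in
lemma dot_vec (X Y : Matrix n n ℂ) : star (vec X) ⬝ᵥ vec Y = (Xᴴ * Y).trace := by
  simp only [vec, dotProduct, Fintype.sum_prod_type, Matrix.trace, Matrix.diag, Matrix.mul_apply,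
    Matrix.conjTranspose_apply, Pi.star_apply]
  rw [Finset.sum_comm]

lemma ginv_herm (σ : Matrix n n ℂ) : (ginv σ).IsHermitian := IsSelfAdjoint.cfc

lemma LR_herm {ρ γ : Matrix n n ℂ} (hρ : ρ.IsHermitian) : (LR ρ γ).IsHermitian := by
  unfold LR
  rw [Matrix.IsHermitian, Matrix.conjTranspose_kronecker, hρ.eq, (ginv_herm γ).transpose.eq]

lemma cfc_diag (f : ℝ → ℝ) (d : n → ℝ) :
    cfc f (diagonal fun i => (d i : ℂ)) = diagonal fun i => (f (d i) : ℂ) := by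
  set A : Matrix n n ℂ := diagonal fun i => (d i : ℂ) with hA
  have hAh : A.IsHermitian := by
    rw [hA, Matrix.IsHermitian, Matrix.diagonal_conjTranspose]
    congr 1
    ext i; simp
  classical
  set s : Finset ℝ := Finset.univ.image d with hs
  set P : Polynomial ℝ := Lagrange.interpolate s id f with hP
  have hPe : ∀ i, P.eval (d i) = f (d i) := fun i =>
    Lagrange.eval_interpolate_at_node (v := id) f (fun x _ y _ h => h)
      (Finset.mem_image_of_mem d (Finset.mem_univ i))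
  have hspec : ∀ x ∈ spectrum ℝ A, ∃ i, d i = x := by
    intro x hx
    have h2 : algebraMap ℝ ℂ x ∈ spectrum ℂ A := (spectrum.algebraMap_mem_iff ℂ).2 hx
    rw [hA, spectrum_diagonal] at h2
    obtain ⟨i, hi⟩ := h2
    exact ⟨i, Complex.ofReal_injective hi⟩
  have h1 : cfc f A = cfc P.eval A := by
    refine cfc_congr fun x hx => ?_
    obtain ⟨i, rfl⟩ := hspec x hx
    exact (hPe i).symm
  have hAs : IsSelfAdjoint A := hAh
  rw [h1, cfc_polynomial P A hAs]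
  have h3 : A = Matrix.diagonalAlgHom ℝ (fun i => (d i : ℂ)) := rfl
  rw [h3, Polynomial.aeval_algHom_apply]
  change diagonal _ = diagonal _
  congr 1
  funext i
  have h4 := Polynomial.aeval_algHom_apply (Pi.evalAlgHom ℝ (fun _ : n => ℂ) i)
    (fun i => (d i : ℂ)) P
  refine h4.symm.trans ?_
  change Polynomial.aeval (algebraMap ℝ ℂ (d i)) P = _
  rw [Polynomial.aeval_algebraMap_apply, Polynomial.coe_aeval_eq_eval, hPe]
  rfl

end Pool.Agent.Q206.RX
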