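import Pool.Agent.Q206.RX.Defs

/-!
# The functions `(x - 1)²` and `2 / (1 + x)`
-/

open Matrix
open scoped ComplexOrder Kronecker MatrixOrder

namespace Pool.Agent.Q206.RX

variable {n : Type} [Fintype n] [DecidableEq n]

/-- `f₀ x = (x-1)²` -/
noncomputable def f0 (x : ℝ) : ℝ := (x - 1) ^ 2

/-- `κ₀ x = 2/(1+x)` -/
noncomputable def k0 (x : ℝ) : ℝ := 2 / (1 + x)

lemma cfc_f0 {A : Matrix n n ℂ} (hA : A.IsHermitian) : cfc f0 A = (A - 1) * (A - 1) := by
  have hs : IsSelfAdjoint A := hA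
  have h := cfc_polynomial ((Polynomial.X - 1) ^ 2 : Polynomial ℝ) A hs
  have h1 : ((Polynomial.X - 1) ^ 2 : Polynomial ℝ).eval = f0 := by
    funext x; simp [f0]
  rw [h1] at h
  rw [h]
  simp [sq]

lemma spec_fin (A : Matrix n n ℂ) : (spectrum ℝ A).Finite := Matrix.finite_real_spectrum

lemma cts_spec (f : ℝ → ℝ) (A : Matrix n n ℂ) : ContinuousOn f (spectrum ℝ A) :=
  (spec_fin A).continuousOn f

lemma k0_mul {A : Matrix n n ℂ} (hA : A.PosSemidef) : (1 + A) * cfc k0 A = (2 : ℂ) • 1 := by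
  have hs : IsSelfAdjoint A := hA.1
  have h1 : cfc (fun x : ℝ => 1 + x) A = 1 + A := by
    have h := cfc_polynomial ((1 + Polynomial.X) : Polynomial ℝ) A hs
    have h1 : ((1 + Polynomial.X) : Polynomial ℝ).eval = fun x => 1 + x := by
      funext x; simp
    rw [h1] at h
    rw [h]; simp
  rw [← h1, ← cfc_mul _ _ A (cts_spec _ _) (cts_spec _ _)]
  have h2 : cfc (fun x : ℝ => (1 + x) * k0 x) A = cfc (fun _ : ℝ => (2 : ℝ)) A := by
    refine cfc_congr fun x hx => ?_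
    have hx0 : 0 ≤ x := spectrum_nonneg_of_nonneg (Matrix.nonneg_iff_posSemidef.2 hA) hx
    have : (1 + x) ≠ 0 := by positivity
    simp only [k0]
    field_simp
  rw [h2, cfc_const 2 A hs]
  rw [Algebra.algebraMap_eq_smul_one]
  ext i j
  simp [Matrix.smul_apply, Matrix.one_apply]


omit [Fintype n] [DecidableEq n] in
lemma comb_herm {A B : Matrix n n ℂ} (hA : A.IsHermitian) (hB : B.IsHermitian) (s t : ℝ) :
    ((s : ℂ) • A + (t : ℂ) • B).IsHermitian := by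
  rw [Matrix.IsHermitian, Matrix.conjTranspose_add, Matrix.conjTranspose_smul,
    Matrix.conjTranspose_smul, hA.eq, hB.eq]
  simp

lemma f0_convex : OperatorConvex f0 := by
  intro k A B t hA hB ht0 ht1
  have hA' := hA.1
  have hB' := hB.1
  rw [cfc_f0 hA', cfc_f0 hB', cfc_f0 (comb_herm hA' hB' t (1 - t))]
  have key : (t : ℂ) • ((A - 1) * (A - 1)) + ((1 - t : ℝ) : ℂ) • ((B - 1) * (B - 1)) -
      ((t : ℂ) • A + ((1 - t : ℝ) : ℂ) • B - 1) * ((t : ℂ) • A + ((1 - t : ℝ) : ℂ) • B - 1)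
      = ((t * (1 - t) : ℝ) : ℂ) • ((A - B)ᴴ * (A - B)) := by
    rw [(hA'.sub hB').eq]
    push_cast
    simp only [sub_mul, mul_sub, add_mul, mul_add, smul_mul_assoc, mul_smul_comm, smul_add,
      smul_sub, mul_one, one_mul]
    module
  rw [key]
  refine (Matrix.posSemidef_conjTranspose_mul_self _).smul ?_
  rw [Complex.zero_le_real]
  exact mul_nonneg ht0 (by linarith)

omit [Fintype n] in
lemma one_add_posDef {A : Matrix n n ℂ} (hA : A.PosSemidef) : (1 + A).PosDef :=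
  Matrix.PosDef.one.add_posSemidef hA

lemma cfc_k0 {A : Matrix n n ℂ} (hA : A.PosSemidef) : cfc k0 A = (2 : ℂ) • (1 + A)⁻¹ := by
  have h := k0_mul hA
  have hu : IsUnit (1 + A).det := (Matrix.isUnit_iff_isUnit_det _).1 (one_add_posDef hA).isUnit
  calc cfc k0 A = (1 + A)⁻¹ * ((1 + A) * cfc k0 A) := by
        rw [← Matrix.mul_assoc, Matrix.nonsing_inv_mul _ hu, Matrix.one_mul]
    _ = (2 : ℂ) • (1 + A)⁻¹ := by rw [h, Matrix.mul_smul, Matrix.mul_one]

lemma k0_convex : OperatorConvex k0 := by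
  intro k A B t hA hB ht0 ht1
  have hA' := hA.posSemidef
  have hB' := hB.posSemidef
  have ht1' : (0 : ℝ) ≤ 1 - t := by linarith
  have hC : ((t : ℂ) • A + ((1 - t : ℝ) : ℂ) • B).PosSemidef :=
    (hA'.smul (Complex.zero_le_real.2 ht0)).add (hB'.smul (Complex.zero_le_real.2 ht1'))
  rw [cfc_k0 hA', cfc_k0 hB', cfc_k0 hC]
  set P := 1 + A with hP
  set Q := 1 + B with hQ
  set R := 1 + ((t : ℂ) • A + ((1 - t : ℝ) : ℂ) • B) with hR
  have hPd : P.PosDef := one_add_posDef hA'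
  have hQd : Q.PosDef := one_add_posDef hB'
  have hRd : R.PosDef := one_add_posDef hC
  have uP : IsUnit P.det := (Matrix.isUnit_iff_isUnit_det _).1 hPd.isUnit
  have uQ : IsUnit Q.det := (Matrix.isUnit_iff_isUnit_det _).1 hQd.isUnit
  have uR : IsUnit R.det := (Matrix.isUnit_iff_isUnit_det _).1 hRd.isUnit
  have hRPQ : (t : ℂ) • P + ((1 - t : ℝ) : ℂ) • Q = R := by
    rw [hP, hQ, hR]; push_cast; module
  have e : ∀ S : Matrix (Fin k) (Fin k) ℂ, IsUnit S.det →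
      (S⁻¹ - R⁻¹) * S * (S⁻¹ - R⁻¹) = S⁻¹ - (2 : ℂ) • R⁻¹ + R⁻¹ * S * R⁻¹ := by
    intro S hS
    rw [sub_mul, Matrix.nonsing_inv_mul _ hS, sub_mul, Matrix.one_mul, mul_sub,
      Matrix.mul_nonsing_inv_cancel_right _ _ hS]
    module
  have e3 : (t : ℂ) • (R⁻¹ * P * R⁻¹) + ((1 - t : ℝ) : ℂ) • (R⁻¹ * Q * R⁻¹) = R⁻¹ := by
    have : (t : ℂ) • (R⁻¹ * P * R⁻¹) + ((1 - t : ℝ) : ℂ) • (R⁻¹ * Q * R⁻¹) =
        R⁻¹ * ((t : ℂ) • P + ((1 - t : ℝ) : ℂ) • Q) * R⁻¹ := by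
      simp only [mul_add, add_mul, mul_smul_comm, smul_mul_assoc]
    rw [this, hRPQ, Matrix.nonsing_inv_mul _ uR, Matrix.one_mul]
  have key : (t : ℂ) • ((2 : ℂ) • P⁻¹) + ((1 - t : ℝ) : ℂ) • ((2 : ℂ) • Q⁻¹) - (2 : ℂ) • R⁻¹ =
      ((2 * t : ℝ) : ℂ) • ((P⁻¹ - R⁻¹)ᴴ * P * (P⁻¹ - R⁻¹)) +
      ((2 * (1 - t) : ℝ) : ℂ) • ((Q⁻¹ - R⁻¹)ᴴ * Q * (Q⁻¹ - R⁻¹)) := by
    rw [(hPd.1.inv.sub hRd.1.inv).eq, (hQd.1.inv.sub hRd.1.inv).eq, e P uP, e Q uQ]
    push_cast at e3 ⊢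
    linear_combination (norm := module) (-2 : ℂ) • e3
  rw [key]
  refine ((hPd.posSemidef.conjTranspose_mul_mul_same _).smul ?_).add
    ((hQd.posSemidef.conjTranspose_mul_mul_same _).smul ?_)
  · rw [Complex.zero_le_real]; positivity
  · rw [Complex.zero_le_real]; positivity

lemma f0_isF : IsF f0 := by
  refine ⟨f0_convex, by simp [f0], ?_⟩
  have h1 : deriv f0 = fun x => 2 * (x - 1) := by
    funext x
    have : HasDerivAt f0 (2 * (x - 1)) x := by
      have h := ((hasDerivAt_id' x).sub_const 1).fun_pow 2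
      have h2 : f0 = fun i => (i - 1) ^ 2 := by funext i; rfl
      rw [h2]
      simpa using h
    exact this.deriv
  rw [h1]
  have : HasDerivAt (fun x : ℝ => 2 * (x - 1)) 2 1 := by
    have h := ((hasDerivAt_id (1 : ℝ)).sub_const 1).const_mul 2
    simpa using h
  rw [this.deriv]
  norm_num

lemma k0_isBoundedK : IsBoundedK k0 := by
  refine ⟨k0_convex, fun x hx => ?_, by norm_num [k0], ?_⟩
  · simp only [k0]
    have : (1 + x) ≠ 0 := by positivity
    have h2 : (1 + 1 / x) ≠ 0 := by positivity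
    field_simp
    ring
  · have : ContinuousAt k0 0 := by
      unfold k0
      refine ContinuousAt.div continuousAt_const (by fun_prop) (by norm_num)
    exact this.tendsto.mono_left nhdsWithin_le_nhds

end Pool.Agent.Q206.RX
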