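import Pool.Agent.Q206.RX.Fn

/-!
# Explicit forms and bounds for `stdDiv f0` and `riem k0`
-/

open Matrix
open scoped ComplexOrder Kronecker MatrixOrder

namespace Pool.Agent.Q206.RX

variable {n : Type} [Fintype n] [DecidableEq n]

omit [DecidableEq n] in
lemma trace_conj_mul (X Y : Matrix n n ℂ) :
    (Xᴴ * Y).trace = ∑ i, ∑ j, star (X i j) * Y i j := by
  simp only [Matrix.trace, Matrix.diag, Matrix.mul_apply, Matrix.conjTranspose_apply]
  rw [Finset.sum_comm]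

omit [DecidableEq n] in
lemma trace_self (W : Matrix n n ℂ) :
    ((Wᴴ * W).trace).re = ∑ i, ∑ j, Complex.normSq (W i j) := by
  rw [trace_conj_mul]
  simp only [Complex.re_sum]
  refine Finset.sum_congr rfl fun i _ => Finset.sum_congr rfl fun j _ => ?_
  rw [Complex.star_def, Complex.conj_mul', ← Complex.ofReal_pow, Complex.ofReal_re,
    Complex.normSq_eq_norm_sq]

lemma stdDiv_f0 {ρ γ : Matrix n n ℂ} (hρ : ρ.IsHermitian) :
    stdDiv f0 ρ γ = ∑ i, ∑ j,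
      Complex.normSq ((ρ * cfc Real.sqrt γ * ginv γ - cfc Real.sqrt γ) i j) := by
  have hH : (LR ρ γ).IsHermitian := LR_herm hρ
  unfold stdDiv
  rw [cfc_f0 hH]
  set s := cfc Real.sqrt γ with hs
  have h1 : (LR ρ γ - 1) *ᵥ vec s = vec (ρ * s * ginv γ - s) := by
    rw [Matrix.sub_mulVec, LR_mulVec, Matrix.one_mulVec]; rfl
  have h3 : (LR ρ γ - 1)ᴴ = LR ρ γ - 1 := (hH.sub Matrix.isHermitian_one).eq
  have h2 : star (vec s) ⬝ᵥ (((LR ρ γ - 1) * (LR ρ γ - 1)) *ᵥ vec s) =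
      star (vec (ρ * s * ginv γ - s)) ⬝ᵥ vec (ρ * s * ginv γ - s) := by
    rw [← Matrix.mulVec_mulVec, Matrix.dotProduct_mulVec, ← h1, Matrix.star_mulVec, h3]
  rw [h2, dot_vec, trace_self]

lemma stdDiv_f0_nonneg {ρ γ : Matrix n n ℂ} (hρ : ρ.IsHermitian) : 0 ≤ stdDiv f0 ρ γ := by
  rw [stdDiv_f0 hρ]
  exact Finset.sum_nonneg fun i _ => Finset.sum_nonneg fun j _ => Complex.normSq_nonneg _

lemma ginv_diag (d : n → ℝ) :
    ginv (diagonal fun i => (d i : ℂ)) = diagonal fun i => (((d i)⁻¹ : ℝ) : ℂ) := by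
  unfold ginv
  rw [cfc_diag]

lemma stdDiv_f0_diag {ρ : Matrix n n ℂ} (hρ : ρ.IsHermitian) (d : n → ℝ) (hd : ∀ i, 0 < d i) :
    stdDiv f0 ρ (diagonal fun i => (d i : ℂ)) = ∑ i, ∑ j,
      Complex.normSq ((ρ - diagonal fun i => (d i : ℂ)) i j) / d j := by
  rw [stdDiv_f0 hρ, cfc_diag, ginv_diag]
  refine Finset.sum_congr rfl fun i _ => Finset.sum_congr rfl fun j _ => ?_
  have hj := hd j
  have hsq : Real.sqrt (d j) * Real.sqrt (d j) = d j := Real.mul_self_sqrt hj.le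
  have hs0 : Real.sqrt (d j) ≠ 0 := (Real.sqrt_pos.2 hj).ne'
  have h1 : (ρ * (diagonal fun i => (Real.sqrt (d i) : ℂ)) *
      (diagonal fun i => (((d i)⁻¹ : ℝ) : ℂ)) - diagonal fun i => (Real.sqrt (d i) : ℂ)) i j =
      ((Real.sqrt (d j))⁻¹ : ℝ) * (ρ - diagonal fun i => (d i : ℂ)) i j := by
    rw [Matrix.sub_apply, Matrix.mul_diagonal, Matrix.mul_diagonal, Matrix.sub_apply]
    have e1 : ((d j)⁻¹ : ℝ) = (Real.sqrt (d j))⁻¹ * (Real.sqrt (d j))⁻¹ := by
      rw [← mul_inv, hsq]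
    have hsc : (Real.sqrt (d j) : ℂ) ≠ 0 := by exact_mod_cast hs0
    by_cases hij : i = j
    · subst hij
      rw [Matrix.diagonal_apply_eq, Matrix.diagonal_apply_eq, e1]
      have e2 : ((d i : ℝ) : ℂ) = (Real.sqrt (d i) : ℂ) * (Real.sqrt (d i) : ℂ) := by
        rw [← Complex.ofReal_mul, hsq]
      rw [e2]
      push_cast
      field_simp
    · rw [Matrix.diagonal_apply_ne _ hij, Matrix.diagonal_apply_ne _ hij, e1]
      push_cast
      field_simp
      simp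
  rw [h1, Complex.normSq_mul, Complex.normSq_ofReal, div_eq_inv_mul]
  congr 1
  rw [← mul_inv, hsq]

/-! ### The Riemannian form -/

lemma ginv_posSemidef {σ : Matrix n n ℂ} (hσ : σ.PosSemidef) : (ginv σ).PosSemidef := by
  rw [← Matrix.nonneg_iff_posSemidef]
  refine cfc_nonneg fun x hx => ?_
  have : 0 ≤ x := spectrum_nonneg_of_nonneg (Matrix.nonneg_iff_posSemidef.2 hσ) hx
  positivity

lemma LR_posSemidef {ρ γ : Matrix n n ℂ} (hρ : ρ.PosSemidef) (hγ : γ.PosSemidef) :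
    (LR ρ γ).PosSemidef := hρ.kronecker (ginv_posSemidef hγ).transpose

omit [Fintype n] [DecidableEq n] in
lemma vec_injective : Function.Injective (vec (n := n)) := by
  intro X Y h
  ext i j
  exact congrFun h (i, j)

lemma exists_Z {σ : Matrix n n ℂ} (hσ : σ.PosSemidef) (Y : Matrix n n ℂ) :
    ∃ Z : Matrix n n ℂ, riem k0 σ Y = ((Yᴴ * Z).trace).re ∧
      Z + σ * Z * ginv σ = (2 : ℂ) • (Y * ginv σ) := by
  set w := cfc k0 (LR σ σ) *ᵥ vec (Y * ginv σ) with hw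
  refine ⟨Matrix.of fun i j => w (i, j), ?_, ?_⟩
  · unfold riem
    rw [← dot_vec]
    rfl
  · set Z : Matrix n n ℂ := Matrix.of fun i j => w (i, j) with hZ
    have hvZ : vec Z = w := by ext ⟨i, j⟩; rfl
    apply vec_injective
    have h1 : (1 + LR σ σ) *ᵥ vec Z = (2 : ℂ) • vec (Y * ginv σ) := by
      rw [hvZ, hw, Matrix.mulVec_mulVec, k0_mul (LR_posSemidef hσ hσ), Matrix.smul_mulVec,
        Matrix.one_mulVec]
    rw [Matrix.add_mulVec, Matrix.one_mulVec, LR_mulVec] at h1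
    exact h1

lemma ginv_mul_self {σ : Matrix n n ℂ} (hσ : σ.PosDef) : ginv σ * σ = 1 := by
  have hs : IsSelfAdjoint σ := hσ.1
  have h1 : cfc (fun x : ℝ => x) σ = σ := cfc_id' ℝ σ
  have h2 : ginv σ * σ = cfc (fun x : ℝ => x⁻¹ * x) σ := by
    rw [cfc_mul _ _ σ (cts_spec _ _) (cts_spec _ _), h1]; rfl
  rw [h2]
  have h3 : cfc (fun x : ℝ => x⁻¹ * x) σ = cfc (fun _ : ℝ => (1 : ℝ)) σ := by
    refine cfc_congr fun x hx => ?_
    have hx0 : x ≠ 0 := by
      rintro rfl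
      exact (spectrum.zero_notMem_iff ℝ).2 hσ.isUnit hx
    exact inv_mul_cancel₀ hx0
  rw [h3, cfc_const_one ℝ σ]

lemma exists_Z' {σ : Matrix n n ℂ} (hσ : σ.PosDef) (Y : Matrix n n ℂ) :
    ∃ Z : Matrix n n ℂ, riem k0 σ Y = ((Zᴴ * Y).trace).re ∧
      σ * Z + Z * σ = (2 : ℂ) • Y := by
  obtain ⟨Z, h1, h2⟩ := exists_Z hσ.posSemidef Y
  refine ⟨Z, ?_, ?_⟩
  · rw [h1]
    have : (Zᴴ * Y).trace = star (Yᴴ * Z).trace := by
      rw [← Matrix.trace_conjTranspose, Matrix.conjTranspose_mul, Matrix.conjTranspose_conjTranspose]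
    rw [this]
    rfl
  · have h3 := congrArg (fun X => X * σ) h2
    simp only [add_mul, Matrix.mul_assoc, smul_mul_assoc, ginv_mul_self hσ, Matrix.mul_one] at h3
    rw [← h3, add_comm]

omit [DecidableEq n] in
lemma QF_nonneg {σ : Matrix n n ℂ} (hσ : σ.PosSemidef) (W : Matrix n n ℂ) :
    0 ≤ ((Wᴴ * (σ * W + W * σ)).trace).re := by
  have h1 : 0 ≤ (Wᴴ * σ * W).trace := (hσ.conjTranspose_mul_mul_same W).trace_nonneg
  have h2 : 0 ≤ (W * σ * Wᴴ).trace := (hσ.mul_mul_conjTranspose_same W).trace_nonneg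
  have h3 : (Wᴴ * (σ * W + W * σ)).trace = (Wᴴ * σ * W).trace + (W * σ * Wᴴ).trace := by
    rw [mul_add, Matrix.trace_add, Matrix.trace_mul_comm Wᴴ (W * σ), Matrix.mul_assoc Wᴴ σ W]
  rw [h3, Complex.add_re]
  exact add_nonneg (Complex.le_def.1 h1).1 (Complex.le_def.1 h2).1

lemma riem_ge {σ : Matrix n n ℂ} (hσ : σ.PosDef) (Y W : Matrix n n ℂ) :
    2 * ((Wᴴ * Y).trace).re - (1 / 2) * ((Wᴴ * (σ * W + W * σ)).trace).re ≤ riem k0 σ Y := by
  obtain ⟨Z, h1, h2⟩ := exists_Z' hσ Y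
  have h3 := QF_nonneg hσ.posSemidef (W - Z)
  have h4 : ((W - Z)ᴴ * (σ * (W - Z) + (W - Z) * σ)).trace =
      (Wᴴ * (σ * W + W * σ)).trace - (Wᴴ * (σ * Z + Z * σ)).trace -
        (Zᴴ * (σ * W + W * σ)).trace + (Zᴴ * (σ * Z + Z * σ)).trace := by
    rw [← Matrix.trace_sub, ← Matrix.trace_sub, ← Matrix.trace_add]
    congr 1
    rw [Matrix.conjTranspose_sub]
    noncomm_ring
  have h5 : (Zᴴ * (σ * W + W * σ)).trace = star ((Wᴴ * (σ * Z + Z * σ)).trace) := by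
    rw [← Matrix.trace_conjTranspose, Matrix.conjTranspose_mul, Matrix.conjTranspose_conjTranspose,
      Matrix.conjTranspose_add, Matrix.conjTranspose_mul, Matrix.conjTranspose_mul, hσ.1.eq,
      mul_add, add_mul, Matrix.trace_add, Matrix.trace_add, ← Matrix.mul_assoc,
      Matrix.mul_assoc σ Zᴴ W, Matrix.trace_mul_comm σ (Zᴴ * W), Matrix.mul_assoc Zᴴ W σ]
  rw [h4, h5, h2] at h3
  simp only [mul_smul_comm, Matrix.trace_smul, smul_eq_mul, Complex.add_re, Complex.sub_re,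
    Complex.star_def, Complex.conj_re, Complex.mul_re, Complex.re_ofNat, Complex.im_ofNat,
    zero_mul, sub_zero] at h3
  rw [h1]
  linarith

lemma riem_nonneg {σ : Matrix n n ℂ} (hσ : σ.PosDef) (Y : Matrix n n ℂ) : 0 ≤ riem k0 σ Y := by
  have h := riem_ge hσ Y 0
  simpa using h

lemma elem_bound (c : ℝ) (hc : 0 < c) (z y : ℂ) :
    2 * (star z * y).re - (1 / 2) * (c * Complex.normSq z) ≤ 2 * Complex.normSq y / c := by
  have h1 : (star z * y).re = z.re * y.re + z.im * y.im := by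
    simp [Complex.mul_re]
  rw [h1, Complex.normSq_apply, Complex.normSq_apply, le_div_iff₀ hc]
  nlinarith [sq_nonneg (c * z.re - 2 * y.re), sq_nonneg (c * z.im - 2 * y.im)]

lemma riem_le {σ : Matrix n n ℂ} (hσ : σ.PosDef) (d : n → ℝ) (hd : ∀ i, 0 < d i)
    (hle : (σ - diagonal fun i => (d i : ℂ)).PosSemidef) (Y : Matrix n n ℂ) :
    riem k0 σ Y ≤ ∑ i, ∑ j, 2 * Complex.normSq (Y i j) / (d i + d j) := by
  obtain ⟨Z, h1, h2⟩ := exists_Z' hσ Y
  set τ : Matrix n n ℂ := diagonal fun i => (d i : ℂ) with hτ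
  have h3 := QF_nonneg hle Z
  have h4 : (Zᴴ * ((σ - τ) * Z + Z * (σ - τ))).trace =
      (Zᴴ * (σ * Z + Z * σ)).trace - (Zᴴ * (τ * Z + Z * τ)).trace := by
    rw [← Matrix.trace_sub]
    congr 1
    noncomm_ring
  rw [h4, h2] at h3
  simp only [mul_smul_comm, Matrix.trace_smul, smul_eq_mul, Complex.sub_re, Complex.mul_re,
    Complex.re_ofNat, Complex.im_ofNat, zero_mul, sub_zero, ← h1] at h3
  have h5 : ((Zᴴ * (τ * Z + Z * τ)).trace).re =
      ∑ i, ∑ j, (d i + d j) * Complex.normSq (Z i j) := by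
    rw [trace_conj_mul]
    simp only [Complex.re_sum]
    refine Finset.sum_congr rfl fun i _ => Finset.sum_congr rfl fun j _ => ?_
    rw [Matrix.add_apply, hτ, Matrix.diagonal_mul, Matrix.mul_diagonal, Complex.normSq_apply]
    simp [Complex.mul_re, Complex.mul_im]
    ring
  have h6 : ((Zᴴ * Y).trace).re = ∑ i, ∑ j, (star (Z i j) * Y i j).re := by
    rw [trace_conj_mul]
    simp only [Complex.re_sum]
  have h7 : riem k0 σ Y ≤ 2 * ((Zᴴ * Y).trace).re - (1 / 2) *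
      ((Zᴴ * (τ * Z + Z * τ)).trace).re := by
    rw [← h1]; linarith
  refine h7.trans ?_
  rw [h5, h6, Finset.mul_sum, Finset.mul_sum, ← Finset.sum_sub_distrib]
  refine Finset.sum_le_sum fun i _ => ?_
  rw [Finset.mul_sum, Finset.mul_sum, ← Finset.sum_sub_distrib]
  refine Finset.sum_le_sum fun j _ => ?_
  exact elem_bound _ (add_pos (hd i) (hd j)) _ _

lemma LR_diag (d : n → ℝ) : LR (diagonal fun i => (d i : ℂ)) (diagonal fun i => (d i : ℂ)) =
    diagonal fun p : n × n => ((d p.1 * (d p.2)⁻¹ : ℝ) : ℂ) := by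
  unfold LR
  rw [ginv_diag, Matrix.diagonal_transpose, Matrix.diagonal_kronecker_diagonal]
  congr 1
  funext p
  push_cast
  rfl

lemma riem_diag (d : n → ℝ) (Y : Matrix n n ℂ) :
    riem k0 (diagonal fun i => (d i : ℂ)) Y =
      ∑ i, ∑ j, Complex.normSq (Y i j) * ((d j)⁻¹ * (2 / (1 + d i * (d j)⁻¹))) := by
  unfold riem
  rw [LR_diag, cfc_diag, ginv_diag]
  simp only [dotProduct, Fintype.sum_prod_type, Matrix.mulVec_diagonal, vec, Pi.star_apply,
    Matrix.mul_diagonal, Complex.re_sum, k0]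
  refine Finset.sum_congr rfl fun i _ => Finset.sum_congr rfl fun j _ => ?_
  rw [Complex.normSq_apply]
  generalize (2 / (1 + d i * (d j)⁻¹)) = c
  generalize (d j)⁻¹ = e
  simp [Complex.mul_re, Complex.mul_im]
  ring

end Pool.Agent.Q206.RX
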