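import Pool.Agent.Q206.RX.Std

/-!
# The Riemannian coefficient is positive
-/

open Matrix
open scoped ComplexOrder Kronecker MatrixOrder

namespace Pool.Agent.Q206.RX

lemma herm_diag {ρ : Matrix (Fin 2) (Fin 2) ℂ} (hρ : ρ.IsHermitian) (i : Fin 2) :
    ((ρ i i).re : ℂ) = ρ i i := by
  have h := hρ.apply i i
  exact Complex.conj_eq_iff_re.1 h

lemma state_form {ρ : Matrix (Fin 2) (Fin 2) ℂ} (hρ : IsState ρ) :
    ∃ (q : ℝ) (r : ℂ), 0 ≤ q ∧ q ≤ 1 ∧ Complex.normSq r ≤ q * (1 - q) ∧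
      ρ = !![((1 - q : ℝ) : ℂ), r; star r, (q : ℂ)] := by
  have h0 := herm_diag hρ.1.1 0
  have h1 := herm_diag hρ.1.1 1
  have h10 : ρ 1 0 = star (ρ 0 1) := (hρ.1.1.apply 1 0).symm
  have ht : ρ 0 0 + ρ 1 1 = 1 := by rw [← Matrix.trace_fin_two]; exact hρ.2
  have hq : (ρ 0 0).re = 1 - (ρ 1 1).re := by
    have := congrArg Complex.re ht
    simp at this
    linarith
  have hd := hρ.1.det_nonneg
  rw [Matrix.det_fin_two, h10, ← h0, ← h1, hq] at hd
  have e : ((1 - (ρ 1 1).re : ℝ) : ℂ) * ((ρ 1 1).re : ℂ) - ρ 0 1 * star (ρ 0 1) =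
      (((1 - (ρ 1 1).re) * (ρ 1 1).re - Complex.normSq (ρ 0 1) : ℝ) : ℂ) := by
    rw [Complex.star_def, Complex.mul_conj]
    push_cast
    ring
  rw [e, Complex.zero_le_real] at hd
  refine ⟨(ρ 1 1).re, ρ 0 1, ?_, ?_, by linarith, ?_⟩
  · have := hρ.1.diag_nonneg (i := 1)
    exact (Complex.le_def.1 this).1
  · have := hρ.1.diag_nonneg (i := 0)
    have := (Complex.le_def.1 this).1
    simp only [Complex.zero_re] at this
    linarith
  · ext i j
    fin_cases i <;> fin_cases j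
    · simp only [Fin.zero_eta, Matrix.of_apply, Matrix.cons_val', Matrix.cons_val_zero]
      rw [← hq, h0]
    · simp
    · simpa using h10
    · simp [h1]

lemma tangent_form {X : Matrix (Fin 2) (Fin 2) ℂ} (hX : X.IsHermitian) (ht : X.trace = 0) :
    ∃ (x : ℝ) (y : ℂ), X = !![(x : ℂ), y; star y, ((-x : ℝ) : ℂ)] := by
  have h0 := herm_diag hX 0
  have h10 : X 1 0 = star (X 0 1) := (hX.apply 1 0).symm
  rw [Matrix.trace_fin_two] at ht
  refine ⟨(X 0 0).re, X 0 1, ?_⟩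
  ext i j
  fin_cases i <;> fin_cases j
  · simp [h0]
  · simp
  · simpa using h10
  · simp only [Fin.mk_one, Matrix.of_apply, Matrix.cons_val', Matrix.cons_val_one]
    push_cast
    rw [h0]
    linear_combination ht

/-- The state with parameters `q`, `r`. -/
noncomputable def S (q : ℝ) (r : ℂ) : Matrix (Fin 2) (Fin 2) ℂ :=
  !![((1 - q : ℝ) : ℂ), r; star r, (q : ℂ)]

/-- The tangent vector with parameters `x`, `y`. -/
noncomputable def T (x : ℝ) (y : ℂ) : Matrix (Fin 2) (Fin 2) ℂ :=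
  !![(x : ℂ), y; star y, ((-x : ℝ) : ℂ)]

lemma M_S (q : ℝ) (r : ℂ) : M (S q r) =
    !![((9 / 25 * (1 - q) + 16 / 25 : ℝ) : ℂ), 9 / 25 * r; 9 / 25 * star r,
      ((9 / 25 * q : ℝ) : ℂ)] := by
  rw [M_apply]
  ext i j
  fin_cases i <;> fin_cases j <;> simp [S]

lemma M_T (x : ℝ) (y : ℂ) : M (T x y) =
    !![((9 / 25 * x : ℝ) : ℂ), 9 / 25 * y; 9 / 25 * star y, ((-(9 / 25 * x) : ℝ) : ℂ)] := by
  rw [M_apply]
  ext i j
  fin_cases i <;> fin_cases j <;> simp [T]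

lemma N_S (q : ℝ) (r : ℂ) : N (S q r) =
    !![((64 / 81 * q : ℝ) : ℂ), 0, 0;
      0, ((1 / 9 * (1 - q) + (36 - 32 * q) / 81 : ℝ) : ℂ), 1 / 9 * r;
      0, 1 / 9 * star r, ((1 / 9 * q + (36 - 32 * q) / 81 : ℝ) : ℂ)] := by
  rw [N_apply]
  ext i j
  fin_cases i <;> fin_cases j <;> simp [S] <;> ring

lemma N_T (x : ℝ) (y : ℂ) : N (T x y) =
    !![((-(64 / 81 * x) : ℝ) : ℂ), 0, 0;
      0, ((41 / 81 * x : ℝ) : ℂ), 1 / 9 * y;
      0, 1 / 9 * star y, ((23 / 81 * x : ℝ) : ℂ)] := by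
  rw [N_apply]
  ext i j
  fin_cases i <;> fin_cases j <;> simp [T] <;> ring

lemma M_lower {q : ℝ} {r : ℂ} (hq : 0 ≤ q) (hS : (S q r).PosSemidef) :
    (M (S q r) - diagonal fun i => ((![3 / 25, 3 / 25 * q] i : ℝ) : ℂ)).PosSemidef := by
  have h1 := hS.mul_mul_conjTranspose_same (!![3 / 2, 0; 0, 1] : Matrix (Fin 2) (Fin 2) ℂ)
  have h2 := h1.smul (a := ((6 / 25 : ℝ) : ℂ)) (by exact_mod_cast (by norm_num : (0:ℝ) ≤ 6 / 25))
  have h3 : (diagonal fun i => ((![13 / 25 - 9 / 50 * (1 - q), 0] i : ℝ) : ℂ)).PosSemidef := by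
    refine Matrix.PosSemidef.diagonal fun i => ?_
    fin_cases i
    · change (0 : ℂ) ≤ ((13 / 25 - 9 / 50 * (1 - q) : ℝ) : ℂ)
      rw [Complex.zero_le_real]
      linarith
    · simp
  convert h2.add h3 using 1
  rw [M_S]
  ext i j
  simp only [Matrix.sub_apply, Matrix.add_apply, Matrix.smul_apply, Matrix.mul_apply,
    Matrix.conjTranspose_apply, Fin.sum_univ_two]
  fin_cases i <;> fin_cases j <;>
    simp [S] <;> ring

lemma M_posDef {q : ℝ} {r : ℂ} (hq : 0 < q) (hS : (S q r).PosSemidef) :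
    (M (S q r)).PosDef := by
  have h1 := M_lower hq.le hS
  have h2 : (diagonal fun i => ((![3 / 25, 3 / 25 * q] i : ℝ) : ℂ)).PosDef := by
    refine diag2_posDef _ fun i => ?_
    fin_cases i
    · change (0 : ℝ) < 3 / 25; norm_num
    · change (0 : ℝ) < 3 / 25 * q; linarith
  have h3 := h2.add_posSemidef h1
  rwa [add_sub_cancel] at h3

lemma N_posDef {q : ℝ} {r : ℂ} (hq : 0 < q) (hq1 : q ≤ 1) (hS : (S q r).PosSemidef) :
    (N (S q r)).PosDef := by
  have h1 := hS.mul_mul_conjTranspose_same (!![0, 0; 1 / 3, 0; 0, 1 / 3] : Matrix (Fin 3) (Fin 2) ℂ)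
  have h2 : (diagonal fun i => ((![64 / 81 * q, (36 - 32 * q) / 81, (36 - 32 * q) / 81] i : ℝ)
      : ℂ)).PosDef := by
    refine Matrix.PosDef.diagonal fun i => ?_
    fin_cases i
    · change (0 : ℂ) < ((64 / 81 * q : ℝ) : ℂ)
      rw [Complex.zero_lt_real]
      linarith
    · change (0 : ℂ) < (((36 - 32 * q) / 81 : ℝ) : ℂ)
      rw [Complex.zero_lt_real]
      linarith
    · change (0 : ℂ) < (((36 - 32 * q) / 81 : ℝ) : ℂ)
      rw [Complex.zero_lt_real]
      linarith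
  convert h2.add_posSemidef h1 using 1
  rw [N_S]
  ext i j
  simp only [Matrix.add_apply, Matrix.mul_apply, Matrix.conjTranspose_apply, Fin.sum_univ_two]
  fin_cases i <;> fin_cases j <;>
    simp [S] <;> ring

lemma riemM_le {q : ℝ} {r : ℂ} (hq : 0 < q) (hq1 : q ≤ 1) (hS : (S q r).PosSemidef)
    (x : ℝ) (y : ℂ) :
    riem k0 (M (S q r)) (M (T x y)) ≤ 54 / 25 * (x ^ 2 / q) + 108 / 25 * Complex.normSq y := by
  have h := riem_le (M_posDef hq hS) ![3 / 25, 3 / 25 * q] (fun i => by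
    fin_cases i
    · change (0 : ℝ) < 3 / 25; norm_num
    · change (0 : ℝ) < 3 / 25 * q; linarith) (M_lower hq.le hS) (M (T x y))
  refine h.trans ?_
  have e1 : Complex.normSq (9 / 25 * y) = 81 / 625 * Complex.normSq y := by
    rw [Complex.normSq_mul, Complex.normSq_apply (9 / 25)]
    norm_num
  have e2 : Complex.normSq (9 / 25 * star y) = 81 / 625 * Complex.normSq y := by
    rw [Complex.normSq_mul, Complex.star_def, Complex.normSq_conj, Complex.normSq_apply (9 / 25)]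
    norm_num
  rw [M_T]
  simp only [Fin.sum_univ_two, Matrix.of_apply, Matrix.cons_val', Matrix.cons_val_zero,
    Matrix.cons_val_one, Matrix.cons_val_fin_one, e1, e2, Complex.normSq_ofReal]
  have hn := Complex.normSq_nonneg y
  have a1 : 2 * (9 / 25 * x * (9 / 25 * x)) / (3 / 25 + 3 / 25) ≤ 27 / 25 * (x ^ 2 / q) := by
    have : x ^ 2 ≤ x ^ 2 / q := by
      rw [le_div_iff₀ hq]
      nlinarith [sq_nonneg x]
    have e : 2 * (9 / 25 * x * (9 / 25 * x)) / (3 / 25 + 3 / 25) = 27 / 25 * x ^ 2 := by ring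
    rw [e]
    linarith
  have a2 : 2 * (-(9 / 25 * x) * -(9 / 25 * x)) / (3 / 25 * q + 3 / 25 * q) =
      27 / 25 * (x ^ 2 / q) := by
    field_simp
    ring
  have a3 : 2 * (81 / 625 * Complex.normSq y) / (3 / 25 + 3 / 25 * q) ≤
      54 / 25 * Complex.normSq y := by
    rw [div_le_iff₀ (by linarith)]
    nlinarith [mul_nonneg hn hq.le]
  have a4 : 2 * (81 / 625 * Complex.normSq y) / (3 / 25 * q + 3 / 25) ≤
      54 / 25 * Complex.normSq y := by
    rw [div_le_iff₀ (by linarith)]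
    nlinarith [mul_nonneg hn hq.le]
  linarith

lemma riemN_ge {q : ℝ} {r : ℂ} (hq : 0 < q) (hq1 : q ≤ 1) (hS : (S q r).PosSemidef)
    (x : ℝ) (y : ℂ) :
    64 / 81 * (x ^ 2 / q) + 4 / 81 * Complex.normSq y ≤ riem k0 (N (S q r)) (N (T x y)) := by
  have h := riem_ge (N_posDef hq hq1 hS) (N (T x y))
    !![((-(x / q) : ℝ) : ℂ), 0, 0; 0, 0, 2 / 9 * y; 0, 2 / 9 * star y, 0]
  refine le_trans ?_ h
  rw [N_T, N_S, trace_conj_mul, trace_conj_mul]
  simp only [Fin.sum_univ_three, Matrix.add_apply, Matrix.mul_apply]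
  simp [Complex.normSq_apply]
  obtain ⟨u, hu⟩ : ∃ u, x = u * q := ⟨x / q, by field_simp⟩
  have h1 : x / q = u := by rw [hu]; field_simp
  have h2 : x ^ 2 / q = u ^ 2 * q := by rw [hu]; field_simp
  rw [h1, h2, hu]
  nlinarith [mul_nonneg (sq_nonneg y.re) hq.le, mul_nonneg (sq_nonneg y.im) hq.le]

/-! ### The pure state `|0⟩⟨0|` -/

lemma riemM_zero (x : ℝ) (y : ℂ) :
    riem k0 (M (S 0 0)) (M (T x y)) = 81 / 625 * (x ^ 2 + 2 * Complex.normSq y) := by
  have hd : M (S 0 0) = diagonal fun i => ((![1, 0] i : ℝ) : ℂ) := by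
    rw [M_S]
    ext i j
    fin_cases i <;> fin_cases j <;> simp
    norm_num
  rw [hd, riem_diag, M_T]
  simp [Fin.sum_univ_two, Complex.normSq_apply]
  ring

lemma riemN_zero (x : ℝ) (y : ℂ) :
    riem k0 (N (S 0 0)) (N (T x y)) =
      (1681 * (9 / 5) + 529 * (9 / 4)) / 6561 * x ^ 2 + 4 / 81 * Complex.normSq y := by
  have hd : N (S 0 0) = diagonal fun i => ((![0, 5 / 9, 4 / 9] i : ℝ) : ℂ) := by
    rw [N_S]
    ext i j
    fin_cases i <;> fin_cases j <;> simp <;> norm_num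
  rw [hd, riem_diag, N_T]
  simp [Fin.sum_univ_three, Complex.normSq_apply]
  ring

lemma main_bound {ρ X : Matrix (Fin 2) (Fin 2) ℂ} (hρ : IsState ρ) (hX : X.IsHermitian)
    (ht : X.trace = 0) :
    0 ≤ riem k0 (M ρ) (M X) ∧ 1 / 100 * riem k0 (M ρ) (M X) ≤ riem k0 (N ρ) (N X) := by
  obtain ⟨q, r, hq0, hq1, hr, hρe⟩ := state_form hρ
  obtain ⟨x, y, hXe⟩ := tangent_form hX ht
  have hρ' : ρ = S q r := hρe
  have hX' : X = T x y := hXe
  have hS : (S q r).PosSemidef := hρ' ▸ hρ.1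
  rw [hρ', hX']
  have hn := Complex.normSq_nonneg y
  rcases hq0.lt_or_eq with hq | hq
  · refine ⟨riem_nonneg (M_posDef hq hS) _, ?_⟩
    have h1 := riemM_le hq hq1 hS x y
    have h2 := riemN_ge hq hq1 hS x y
    have h3 : 0 ≤ x ^ 2 / q := by positivity
    linarith
  · subst hq
    have hr0 : r = 0 := by
      rw [← Complex.normSq_eq_zero]
      exact le_antisymm (by simpa using hr) (Complex.normSq_nonneg _)
    subst hr0
    rw [riemM_zero, riemN_zero]
    constructor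
    · positivity
    · nlinarith [sq_nonneg x]

/-- **The Riemannian relative expansion coefficient is positive.** -/
lemma etaRiem_pos : 0 < etaRiem k0 N M := by
  have h : (((1 / 100 : ℝ)) : EReal) ≤ etaRiem k0 N M := by
    refine le_sInf ?_
    rintro x ⟨ρ, X, hρ, hX, ht, hne, rfl⟩
    obtain ⟨h0, h1⟩ := main_bound hρ hX ht
    have hpos : 0 < riem k0 (M ρ) (M X) := lt_of_le_of_ne h0 (Ne.symm hne)
    rw [EReal.coe_le_coe_iff, le_div_iff₀ hpos]
    exact h1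
  refine lt_of_lt_of_le ?_ h
  exact_mod_cast (by norm_num : (0 : ℝ) < 1 / 100)

end Pool.Agent.Q206.RX
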