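import Pool.Agent.Q206.RX.Chan

/-!
# The standard coefficient vanishes
-/

open Matrix
open scoped ComplexOrder Kronecker MatrixOrder

namespace Pool.Agent.Q206.RX

variable {a b n : Type} [Fintype a] [DecidableEq a] [Fintype b] [DecidableEq b]
  [Fintype n] [DecidableEq n]

omit [DecidableEq a] [Fintype b] [DecidableEq b] in
lemma kraus_herm {ι : Type} [Fintype ι] (K : ι → Matrix b a ℂ) {X : Matrix a a ℂ}
    (hX : X.IsHermitian) : (kraus K X).IsHermitian := by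
  change (∑ i, K i * X * (K i)ᴴ)ᴴ = ∑ i, K i * X * (K i)ᴴ
  rw [Matrix.conjTranspose_sum]
  refine Finset.sum_congr rfl fun i _ => ?_
  rw [Matrix.conjTranspose_mul, Matrix.conjTranspose_mul, Matrix.conjTranspose_conjTranspose,
    hX.eq, Matrix.mul_assoc]

omit [DecidableEq a] [DecidableEq b] in
lemma kraus_psd {ι : Type} [Fintype ι] (K : ι → Matrix b a ℂ) {X : Matrix a a ℂ}
    (hX : X.PosSemidef) : (kraus K X).PosSemidef :=
  Matrix.posSemidef_sum _ fun _ _ => hX.mul_mul_conjTranspose_same _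

/-- The state `diag(1-e, e)`. -/
noncomputable def gam (e : ℝ) : Matrix (Fin 2) (Fin 2) ℂ := !![((1 - e : ℝ) : ℂ), 0; 0, (e : ℂ)]

/-- The state `diag(1-e, e) + (e/2) σ_x`. -/
noncomputable def rh (e : ℝ) : Matrix (Fin 2) (Fin 2) ℂ :=
  !![((1 - e : ℝ) : ℂ), ((e / 2 : ℝ) : ℂ); ((e / 2 : ℝ) : ℂ), (e : ℂ)]

lemma diag2_posDef (d : Fin 2 → ℝ) (hd : ∀ i, 0 < d i) :
    (diagonal fun i => (d i : ℂ)).PosDef :=
  Matrix.PosDef.diagonal fun i => by exact_mod_cast hd i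

lemma gam_eq (e : ℝ) : gam e = diagonal fun i => ((![1 - e, e] i : ℝ) : ℂ) := by
  ext i j
  fin_cases i <;> fin_cases j <;> simp [gam]

lemma gam_posDef {e : ℝ} (h0 : 0 < e) (h1 : e ≤ 1 / 2) : (gam e).PosDef := by
  rw [gam_eq]
  refine Matrix.PosDef.diagonal fun i => ?_
  fin_cases i
  · simp only [Fin.zero_eta, Matrix.cons_val_zero]; exact_mod_cast (by linarith : 0 < 1 - e)
  · simp only [Fin.mk_one, Matrix.cons_val_one]; exact_mod_cast h0

lemma rh_posDef {e : ℝ} (h0 : 0 < e) (h1 : e ≤ 1 / 2) : (rh e).PosDef := by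
  have h2 : (diagonal fun i => ((![1 - e - e / 2, e / 2] i : ℝ) : ℂ)).PosDef := by
    refine Matrix.PosDef.diagonal fun i => ?_
    fin_cases i
    · simp only [Fin.zero_eta, Matrix.cons_val_zero]
      exact_mod_cast (by linarith : 0 < 1 - e - e / 2)
    · simp only [Fin.mk_one, Matrix.cons_val_one]
      exact_mod_cast (by linarith : 0 < e / 2)
  have h3 : (Matrix.vecMulVec (![1, 1] : Fin 2 → ℂ) (star ![1, 1])).PosSemidef :=
    Matrix.posSemidef_vecMulVec_self_star _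
  have h4 := h3.smul (a := ((e / 2 : ℝ) : ℂ)) (by exact_mod_cast (by linarith : 0 ≤ e / 2))
  have h5 := h2.add_posSemidef h4
  convert h5 using 1
  ext i j
  fin_cases i <;> fin_cases j <;> simp [rh]

lemma gam_state {e : ℝ} (h0 : 0 < e) (h1 : e ≤ 1 / 2) : IsState (gam e) := by
  refine ⟨(gam_posDef h0 h1).posSemidef, ?_⟩
  rw [Matrix.trace_fin_two]
  simp [gam]

lemma rh_state {e : ℝ} (h0 : 0 < e) (h1 : e ≤ 1 / 2) : IsState (rh e) := by
  refine ⟨(rh_posDef h0 h1).posSemidef, ?_⟩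
  rw [Matrix.trace_fin_two]
  simp [rh]

lemma posDef_ker {A : Matrix n n ℂ} (hA : A.PosDef) (v : n → ℂ) : A *ᵥ v = 0 ↔ v = 0 := by
  constructor
  · intro h
    have hu : IsUnit A.det := (Matrix.isUnit_iff_isUnit_det _).1 hA.isUnit
    have : A⁻¹ *ᵥ (A *ᵥ v) = v := by
      rw [Matrix.mulVec_mulVec, Matrix.nonsing_inv_mul _ hu, Matrix.one_mulVec]
    rw [← this, h, Matrix.mulVec_zero]
  · rintro rfl
    exact Matrix.mulVec_zero _

lemma stdM {e : ℝ} (h0 : 0 < e) (h1 : e ≤ 1 / 2) :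
    stdDiv f0 (M (rh e)) (M (gam e)) =
      (9 / 25 * (e / 2)) ^ 2 / (1 - 9 / 25 * e) + (9 / 25 * (e / 2)) ^ 2 / (9 / 25 * e) := by
  have hd : M (gam e) = diagonal fun i => ((![1 - 9 / 25 * e, 9 / 25 * e] i : ℝ) : ℂ) := by
    rw [M_apply]
    ext i j
    fin_cases i <;> fin_cases j <;> simp [gam]
    ring
  rw [hd, stdDiv_f0_diag (ρ := M (rh e)) (kraus_herm _ (rh_posDef h0 h1).1)]
  · rw [M_apply]
    simp only [Fin.sum_univ_two, Matrix.sub_apply]
    simp [rh, Complex.normSq_apply]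
    ring
  · intro i
    fin_cases i
    · change 0 < 1 - 9 / 25 * e; linarith
    · change 0 < 9 / 25 * e; linarith

lemma stdN {e : ℝ} (h0 : 0 < e) (h1 : e ≤ 1 / 2) :
    stdDiv f0 (N (rh e)) (N (gam e)) =
      (1 / 9 * (e / 2)) ^ 2 / ((45 - 41 * e) / 81) + (1 / 9 * (e / 2)) ^ 2 / ((36 - 23 * e) / 81) := by
  have hd : N (gam e) = diagonal fun i =>
      ((![64 / 81 * e, (45 - 41 * e) / 81, (36 - 23 * e) / 81] i : ℝ) : ℂ) := by
    rw [N_apply]
    ext i j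
    fin_cases i <;> fin_cases j <;> simp [gam] <;> ring
  rw [hd, stdDiv_f0_diag (ρ := N (rh e)) (kraus_herm _ (rh_posDef h0 h1).1)]
  · rw [N_apply]
    simp only [Fin.sum_univ_three, Matrix.sub_apply]
    simp [rh, Complex.normSq_apply]
    ring
  · intro i
    fin_cases i
    · change 0 < 64 / 81 * e; linarith
    · change 0 < (45 - 41 * e) / 81; linarith
    · change 0 < (36 - 23 * e) / 81; linarith

lemma ratio_le {e : ℝ} (h0 : 0 < e) (h1 : e ≤ 1 / 2) :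
    0 < stdDiv f0 (M (rh e)) (M (gam e)) ∧
    stdDiv f0 (N (rh e)) (N (gam e)) / stdDiv f0 (M (rh e)) (M (gam e)) ≤ e := by
  rw [stdM h0 h1, stdN h0 h1]
  have hM : 9 * e / 100 ≤ (9 / 25 * (e / 2)) ^ 2 / (1 - 9 / 25 * e) +
      (9 / 25 * (e / 2)) ^ 2 / (9 / 25 * e) := by
    have e1 : (9 / 25 * (e / 2)) ^ 2 / (9 / 25 * e) = 9 * e / 100 := by field_simp; ring
    have e2 : 0 ≤ (9 / 25 * (e / 2)) ^ 2 / (1 - 9 / 25 * e) :=
      div_nonneg (sq_nonneg _) (by linarith)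
    linarith
  have hN : (1 / 9 * (e / 2)) ^ 2 / ((45 - 41 * e) / 81) +
      (1 / 9 * (e / 2)) ^ 2 / ((36 - 23 * e) / 81) ≤ 9 * e ^ 2 / 100 := by
    have e1 : (1 / 9 * (e / 2)) ^ 2 / ((45 - 41 * e) / 81) ≤ (1 / 9 * (e / 2)) ^ 2 / (24 / 81) :=
      div_le_div_of_nonneg_left (sq_nonneg _) (by norm_num) (by linarith)
    have e2 : (1 / 9 * (e / 2)) ^ 2 / ((36 - 23 * e) / 81) ≤ (1 / 9 * (e / 2)) ^ 2 / (24 / 81) :=
      div_le_div_of_nonneg_left (sq_nonneg _) (by norm_num) (by linarith)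
    nlinarith [sq_nonneg e]
  have hpos : 0 < 9 * e / 100 := by linarith
  refine ⟨lt_of_lt_of_le hpos hM, ?_⟩
  rw [div_le_iff₀ (lt_of_lt_of_le hpos hM)]
  calc _ ≤ 9 * e ^ 2 / 100 := hN
    _ = e * (9 * e / 100) := by ring
    _ ≤ _ := mul_le_mul_of_nonneg_left hM h0.le

/-- **The standard relative expansion coefficient vanishes.** -/
lemma etaStd_zero : etaStd f0 N M = 0 := by
  apply le_antisymm
  · by_contra hlt
    rw [not_le] at hlt
    obtain ⟨r, hr0, hr1⟩ := EReal.lt_iff_exists_real_btwn.1 hlt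
    have hr0' : 0 < r := by exact_mod_cast hr0
    set e := min r (1 / 2) with he
    have he0 : 0 < e := lt_min hr0' (by norm_num)
    have he1 : e ≤ 1 / 2 := min_le_right _ _
    obtain ⟨hp, hle⟩ := ratio_le he0 he1
    have h : etaStd f0 N M ≤
        ((stdDiv f0 (N (rh e)) (N (gam e)) / stdDiv f0 (M (rh e)) (M (gam e)) : ℝ) : EReal) := by
      refine sInf_le ⟨rh e, gam e, rh_state he0 he1, gam_state he0 he1, ?_, ?_, hp.ne', rfl⟩
      · intro h
        have h2 := congrFun (congrFun h 0) 1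
        simp [rh, gam] at h2
        linarith
      · intro v
        rw [posDef_ker (rh_posDef he0 he1), posDef_ker (gam_posDef he0 he1)]
    have h2 : etaStd f0 N M ≤ (r : EReal) :=
      h.trans (EReal.coe_le_coe_iff.2 (hle.trans (min_le_left _ _)))
    exact absurd hr1 (not_lt.2 h2)
  · refine le_sInf ?_
    rintro x ⟨ρ, γ, hρ, hγ, -, -, -, rfl⟩
    have h := div_nonneg (stdDiv_f0_nonneg (ρ := N ρ) (γ := N γ) (kraus_herm _ hρ.1.1))
      (stdDiv_f0_nonneg (ρ := M ρ) (γ := M γ) (kraus_herm _ hρ.1.1))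
    exact_mod_cast h

end Pool.Agent.Q206.RX
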